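import Mathlib.Order.CompleteLattice.Basic
import Mathlib.Order.Bounds.Basic

/-!
MP_31821e_co, Q2.  For every complete lattice `L` the poset of retractions of `L`
(order-preserving idempotent self-maps, pointwise order) is a complete lattice.
-/

namespace Pool.Agent.Results.MP_31821e_co.CompleteCase

universe u

/-- A retraction of a lattice: an order-preserving idempotent self-map. -/
def IsRetraction {L : Type u} [Lattice L] (r : L → L) : Prop :=
  (∀ x y : L, x ≤ y → r x ≤ r y) ∧ ∀ x : L, r (r x) = r x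

/-- The set of all retractions of `L`; as a subtype of `L → L` it carries the pointwise order. -/
abbrev Retr (L : Type u) [Lattice L] : Type u := {r : L → L // IsRetraction r}

/-- sanity check: the order on `Retr L` is the pointwise one. -/
theorem le_iff {L : Type u} [Lattice L] (r s : Retr L) :
    r ≤ s ↔ ∀ x : L, r.1 x ≤ s.1 x := Iff.rfl

theorem exists_lub {L : Type u} [CompleteLattice L] (S : Set (Retr L)) :
    ∃ t : Retr L, IsLUB S t := by
  classical
  -- the family of order-preserving expanding-type maps below every upper bound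
  let T : Set (L → L) := {h | (∀ x y : L, x ≤ y → h x ≤ h y) ∧ (∀ x, h x ≤ h (h x)) ∧
    ∀ t : Retr L, t ∈ upperBounds S → ∀ x, h x ≤ t.1 x}
  let g : L → L := fun x => ⨆ h : T, h.1 x
  have hle : ∀ h ∈ T, ∀ x, h x ≤ g x := fun h hh x => le_iSup (fun h : T => h.1 x) ⟨h, hh⟩
  have gmono : ∀ x y : L, x ≤ y → g x ≤ g y := by
    intro x y hxy
    exact iSup_mono (fun h => h.2.1 x y hxy)
  have gexp : ∀ x, g x ≤ g (g x) := by
    intro x
    refine iSup_le (fun h => ?_)
    calc h.1 x ≤ h.1 (h.1 x) := h.2.2.1 x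
      _ ≤ h.1 (g x) := h.2.1 _ _ (hle h.1 h.2 x)
      _ ≤ g (g x) := hle h.1 h.2 _
  have gub : ∀ t : Retr L, t ∈ upperBounds S → ∀ x, g x ≤ t.1 x := by
    intro t ht x
    exact iSup_le (fun h => h.2.2.2 t ht x)
  have gT : g ∈ T := ⟨gmono, gexp, gub⟩
  have ggT : (fun x => g (g x)) ∈ T := by
    refine ⟨fun x y hxy => gmono _ _ (gmono _ _ hxy), fun x => ?_, fun t ht x => ?_⟩
    · exact (gexp (g x)).trans (gmono _ _ ((gexp (g x))))
    · calc g (g x) ≤ g (t.1 x) := gmono _ _ (gub t ht x)
        _ ≤ t.1 (t.1 x) := gub t ht _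
        _ = t.1 x := t.2.2 x
  have gid : ∀ x, g (g x) = g x := fun x => le_antisymm (hle _ ggT x) (gexp x)
  refine ⟨⟨g, gmono, gid⟩, ?_, ?_⟩
  · intro r hr x
    refine hle r.1 ⟨r.2.1, fun x => (r.2.2 x).ge, fun t ht x => ht hr x⟩ x
  · intro t ht x
    exact gub t ht x

/-- **Q2.** For every complete lattice `L`, every set of retractions of `L` has a least upper
bound and a greatest lower bound in the poset of retractions of `L`. -/
theorem result (L : Type u) [CompleteLattice L] (S : Set (Retr L)) :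
    (∃ t : Retr L, IsLUB S t) ∧ (∃ t : Retr L, IsGLB S t) := by
  refine ⟨exists_lub S, ?_⟩
  obtain ⟨t, ht⟩ := exists_lub (lowerBounds S)
  exact ⟨t, isLUB_lowerBounds.1 ht⟩

end Pool.Agent.Results.MP_31821e_co.CompleteCase
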